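import Mathlib

/-!
# RBW/Wts: weights which extrapolate from scales near `1` to the lowest coefficient
-/

namespace Pool.Agent.RBW

open Finset Polynomial

/-- There are scales `t i` and weights `a i`, `i ≤ r`, with `∑ a i (t i)^(k + 2 j) = [j = 0]` for
`j ≤ r` and `∑ |a i| ≤ (12 (k + r))^r`. -/
theorem weights (k r : ℕ) (hk : 1 ≤ k) : ∃ a t : ℕ → ℝ,
    (∀ i ∈ range (r + 1), 0 ≤ t i ∧ t i ≤ 1) ∧
    (∀ j ≤ r, ∑ i ∈ range (r + 1), a i * t i ^ (k + 2 * j) = if j = 0 then 1 else 0) ∧
    ∑ i ∈ range (r + 1), |a i| ≤ (12 * ((k : ℝ) + r)) ^ r := by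
  obtain ⟨M, hM⟩ : ∃ M : ℝ, M = 2 * ((k : ℝ) + r) := ⟨_, rfl⟩
  have hk1 : (1 : ℝ) ≤ k := by exact_mod_cast hk
  have hr0 : (0 : ℝ) ≤ r := Nat.cast_nonneg r
  have hM0 : 0 < M := by rw [hM]; linarith
  set t : ℕ → ℝ := fun i => 1 - i / M with ht
  have hi : ∀ i ∈ range (r + 1), (i : ℝ) / M ≤ 1 / 2 := by
    intro i hi
    have : (i : ℝ) ≤ r := by exact_mod_cast Nat.lt_succ_iff.mp (mem_range.mp hi)
    rw [div_le_iff₀ hM0, hM]
    linarith
  have ht2 : ∀ i ∈ range (r + 1), 1 / 2 ≤ t i := by
    intro i h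
    have := hi i h
    simp only [ht]
    linarith
  have ht1 : ∀ i, t i ≤ 1 := by
    intro i
    simp only [ht]
    have : 0 ≤ (i : ℝ) / M := by positivity
    linarith
  set v : ℕ → ℝ := fun i => t i ^ 2 with hv
  have hsep : ∀ i ∈ range (r + 1), ∀ j ∈ range (r + 1), i ≠ j → 1 / M ≤ |v i - v j| := by
    intro i hi' j hj' hij
    have h1 : v i - v j = (t i - t j) * (t i + t j) := by simp only [hv]; ring
    have h2 : t i - t j = ((j : ℝ) - i) / M := by simp only [ht]; ring
    have h3 : 1 ≤ |(j : ℝ) - i| := by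
      have h4 : (1 : ℤ) ≤ |(j : ℤ) - i| := by
        apply Int.one_le_abs
        intro h0
        apply hij
        omega
      have h5 : ((1 : ℤ) : ℝ) ≤ ((|(j : ℤ) - i| : ℤ) : ℝ) := by exact_mod_cast h4
      push_cast at h5
      simpa using h5
    have h4 : 1 ≤ t i + t j := by linarith [ht2 i hi', ht2 j hj']
    rw [h1, abs_mul, h2, abs_div, abs_of_pos hM0, abs_of_nonneg (by linarith : 0 ≤ t i + t j)]
    have h5 : 1 / M ≤ |(j : ℝ) - i| / M := by gcongr
    calc 1 / M ≤ |(j : ℝ) - i| / M := h5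
      _ ≤ |(j : ℝ) - i| / M * (t i + t j) := by
        have : 0 ≤ |(j : ℝ) - i| / M := by positivity
        nlinarith
  have hinj : Set.InjOn v (range (r + 1) : Finset ℕ) := by
    intro i hi' j hj' hij
    by_contra hne
    have := hsep i (by simpa using hi') j (by simpa using hj') hne
    rw [hij, sub_self, abs_zero] at this
    have h2 : 0 < 1 / M := by positivity
    linarith
  set l : ℕ → ℝ := fun i => (Lagrange.basis (range (r + 1)) v i).eval 0 with hl
  have hlag : ∀ j ≤ r, ∑ i ∈ range (r + 1), v i ^ j * l i = if j = 0 then 1 else 0 := by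
    intro j hj
    have hdeg : (X ^ j : ℝ[X]).degree < (range (r + 1)).card := by
      rw [degree_X_pow, card_range]
      exact_mod_cast Nat.lt_succ_of_le hj
    have h1 := Lagrange.eq_interpolate (v := v) hinj hdeg
    have h2 := congrArg (fun p : ℝ[X] => p.eval 0) h1
    simp only [Lagrange.interpolate_apply, eval_finsetSum, eval_mul, eval_C, eval_pow, eval_X] at h2
    rw [← h2]
    split_ifs with h0
    · rw [h0, pow_zero]
    · rw [zero_pow h0]
  have hlb : ∀ i ∈ range (r + 1), |l i| ≤ M ^ r := by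
    intro i hi'
    simp only [hl, Lagrange.basis, eval_prod, Finset.abs_prod]
    have hc : ((range (r + 1)).erase i).card = r := by
      rw [card_erase_of_mem hi', card_range]; rfl
    calc ∏ j ∈ (range (r + 1)).erase i, |(Lagrange.basisDivisor (v i) (v j)).eval 0|
        ≤ ∏ _j ∈ (range (r + 1)).erase i, M := by
          refine Finset.prod_le_prod (fun j _ => abs_nonneg _) fun j hj => ?_
          have hj2 := mem_of_mem_erase hj
          have hs := hsep i hi' j hj2 (ne_of_mem_erase hj).symm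
          have hpos : 0 < |v i - v j| := lt_of_lt_of_le (by positivity) hs
          simp only [Lagrange.basisDivisor, eval_mul, eval_C, eval_sub, eval_X, zero_sub, abs_mul,
            abs_neg, abs_inv]
          have h3 : |v j| ≤ 1 := by
            simp only [hv]
            rw [abs_of_nonneg (sq_nonneg _)]
            have := ht2 j hj2
            have := ht1 j
            nlinarith
          have h4 : |v i - v j|⁻¹ ≤ M := by
            rw [inv_le_comm₀ hpos hM0]
            simpa using hs
          calc |v i - v j|⁻¹ * |v j| ≤ M * 1 := by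
                refine mul_le_mul h4 h3 (abs_nonneg _) hM0.le
            _ = M := mul_one M
      _ = M ^ r := by rw [prod_const, hc]
  have htk : ∀ i ∈ range (r + 1), (t i ^ k)⁻¹ ≤ 3 ^ r := by
    intro i hi'
    have hir : (i : ℝ) ≤ r := by exact_mod_cast Nat.lt_succ_iff.mp (mem_range.mp hi')
    have h1 := hi i hi'
    have h0 : 0 ≤ (i : ℝ) / M := by positivity
    have h2 : (t i)⁻¹ ≤ 1 + 2 * (i / M) := by
      rw [inv_le_iff_one_le_mul₀ (by linarith [ht2 i hi'])]
      simp only [ht]
      nlinarith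
    have h3 : (1 : ℝ) + 2 * (i / M) ≤ Real.exp (2 * (i / M)) := by
      have := Real.add_one_le_exp (2 * ((i : ℝ) / M))
      linarith
    have h4 : (k : ℝ) * (2 * (i / M)) ≤ r := by
      have h5 : (k : ℝ) * (2 * (i / M)) = (2 * k * i) / M := by ring
      rw [h5, div_le_iff₀ hM0, hM]
      nlinarith
    rw [← inv_pow]
    calc ((t i)⁻¹) ^ k ≤ (Real.exp (2 * (i / M))) ^ k := by
          have : 0 ≤ (t i)⁻¹ := inv_nonneg.mpr (by linarith [ht2 i hi'])
          gcongr
          exact h2.trans h3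
      _ = Real.exp (k * (2 * (i / M))) := by rw [← Real.exp_nat_mul]
      _ ≤ Real.exp r := Real.exp_le_exp.mpr h4
      _ = Real.exp 1 ^ r := by rw [← Real.exp_nat_mul, mul_one]
      _ ≤ 3 ^ r := by
          have : Real.exp 1 ≤ 3 := Real.exp_one_lt_three.le
          gcongr
  refine ⟨fun i => l i * (t i ^ k)⁻¹, t, fun i hi' => ⟨by linarith [ht2 i hi'], ht1 i⟩, ?_, ?_⟩
  · intro j hj
    rw [← hlag j hj]
    refine Finset.sum_congr rfl fun i hi' => ?_
    have : t i ^ k ≠ 0 := pow_ne_zero _ (by linarith [ht2 i hi'])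
    simp only [hv]
    rw [pow_add, ← pow_mul]
    field_simp
  · calc ∑ i ∈ range (r + 1), |l i * (t i ^ k)⁻¹| ≤ ∑ _i ∈ range (r + 1), M ^ r * 3 ^ r := by
          refine Finset.sum_le_sum fun i hi' => ?_
          have h6 : 0 ≤ (t i ^ k)⁻¹ := inv_nonneg.mpr (pow_nonneg (by linarith [ht2 i hi']) _)
          rw [abs_mul, abs_of_nonneg h6]
          exact mul_le_mul (hlb i hi') (htk i hi') h6 (by positivity)
      _ = (r + 1) * (M ^ r * 3 ^ r) := by
          rw [sum_const, card_range, nsmul_eq_mul]; push_cast; ring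
      _ ≤ 2 ^ r * (M ^ r * 3 ^ r) := by
          have h7 : ((r : ℝ) + 1) ≤ 2 ^ r := by
            have := one_add_mul_le_pow (a := (1 : ℝ)) (by norm_num) r
            have h8 : (1 : ℝ) + 1 = 2 := by norm_num
            rw [h8] at this
            linarith
          have : 0 ≤ M ^ r * 3 ^ r := by positivity
          gcongr
      _ = (12 * ((k : ℝ) + r)) ^ r := by
          rw [← mul_pow, ← mul_pow, hM]
          congr 1
          ring

end Pool.Agent.RBW
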