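import Pool.Agent.RBW.Flip
import Pool.Agent.RBW.Wts

/-!
# RBW/Bound: the part of `f` on the monomials with exactly one variable of each block is bounded
-/

namespace Pool.Agent.RBW

open Finset Pool.Agent.Helper11.Cube Pool.Agent.Helper11.AA

variable {n : ℕ}

/-- `S` consists of exactly one variable of each of the blocks `b < k`. -/
def Rb (k : ℕ) (β : Fin n → ℕ) (S : Finset (Fin n)) : Prop :=
  (∀ b < k, (S.filter (fun i => β i = b)).card = 1) ∧ ∀ i ∈ S, β i < k

lemma inter_blk (β : Fin n → ℕ) (b : ℕ) (S : Finset (Fin n)) :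
    S ∩ blk β b = S.filter (fun i => β i = b) := by
  ext i
  simp [blk]

lemma card_split (k : ℕ) (β : Fin n → ℕ) (S : Finset (Fin n)) :
    S.card = ∑ b ∈ range k, (S ∩ blk β b).card + ∑ b ∈ high k β, (S ∩ blk β b).card := by
  have h1 : (S.filter (fun i => β i < k)).card = ∑ b ∈ range k, (S ∩ blk β b).card := by
    rw [Finset.card_eq_sum_card_fiberwise (f := β) (t := range k)
      (fun i hi => by
        have hi2 : i ∈ S.filter (fun i => β i < k) := by simpa using hi
        have := (Finset.mem_filter.mp hi2).2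
        simpa using this)]
    refine Finset.sum_congr rfl fun b hb => ?_
    rw [inter_blk, Finset.filter_filter]
    congr 1
    ext i
    simp only [mem_filter]
    constructor
    · rintro ⟨h1, _, h2⟩
      exact ⟨h1, h2⟩
    · rintro ⟨h1, h2⟩
      exact ⟨h1, by rw [h2]; exact mem_range.mp hb, h2⟩
  have h2 : (S.filter (fun i => ¬ β i < k)).card = ∑ b ∈ high k β, (S ∩ blk β b).card := by
    rw [Finset.card_eq_sum_card_fiberwise (f := β) (t := high k β)
      (fun i hi => by
        have hi2 : i ∈ S.filter (fun i => ¬ β i < k) := by simpa using hi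
        have := (Finset.mem_filter.mp hi2).2
        exact mem_filter.mpr ⟨mem_image.mpr ⟨i, mem_univ _, rfl⟩, not_lt.mp this⟩)]
    refine Finset.sum_congr rfl fun b hb => ?_
    rw [inter_blk, Finset.filter_filter]
    congr 1
    ext i
    simp only [mem_filter]
    constructor
    · rintro ⟨h1, _, h2⟩
      exact ⟨h1, h2⟩
    · rintro ⟨h1, h2⟩
      exact ⟨h1, by rw [h2]; exact not_lt.mpr (mem_filter.mp hb).2, h2⟩
  rw [← h1, ← h2, Finset.card_filter_add_card_filter_not]

lemma rb_empty {k : ℕ} {β : Fin n → ℕ} {S : Finset (Fin n)} (h : Rb k β S) (b : ℕ) (hb : k ≤ b) :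
    S ∩ blk β b = ∅ := by
  ext i
  simp only [blk, mem_inter, mem_filter, mem_univ, true_and, notMem_empty, iff_false, not_and]
  intro hi hc
  have := h.2 i hi
  omega

lemma rb_par {k : ℕ} {β : Fin n → ℕ} {S : Finset (Fin n)} (h : Rb k β S) :
    Par k β S ∧ S.card = k := by
  have h1 : ∀ b < k, (S ∩ blk β b).card = 1 := fun b hb => by rw [inter_blk]; exact h.1 b hb
  refine ⟨⟨fun b hb => by rw [h1 b hb]; exact odd_one, fun b hb => by rw [rb_empty h b hb]; simp⟩, ?_⟩
  have h2 : ∑ b ∈ high k β, (S ∩ blk β b).card = 0 :=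
    Finset.sum_eq_zero fun b hb => by rw [rb_empty h b (mem_filter.mp hb).2]; simp
  rw [card_split k β S, h2, add_zero, Finset.sum_congr rfl fun b hb => h1 b (mem_range.mp hb)]
  simp

lemma par_card {k : ℕ} {β : Fin n → ℕ} {S : Finset (Fin n)} (h : Par k β S) :
    ∃ j : ℕ, S.card = k + 2 * j ∧ (j = 0 → Rb k β S) := by
  classical
  choose! e he using h.1
  have hev : Even (∑ b ∈ high k β, (S ∩ blk β b).card) :=
    Finset.even_sum _ fun b hb => h.2 b (mem_filter.mp hb).2
  obtain ⟨e', he'⟩ := hev
  have hc := card_split k β S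
  have h1 : ∑ b ∈ range k, (S ∩ blk β b).card = ∑ b ∈ range k, (2 * e b + 1) :=
    Finset.sum_congr rfl fun b hb => he b (mem_range.mp hb)
  rw [h1, Finset.sum_add_distrib, ← Finset.mul_sum] at hc
  simp only [sum_const, card_range, smul_eq_mul, mul_one] at hc
  refine ⟨∑ b ∈ range k, e b + e', by omega, fun h0 => ?_⟩
  have h2 : ∑ b ∈ range k, e b = 0 := by omega
  have h3 : e' = 0 := by omega
  refine ⟨fun b hb => ?_, fun i hi => ?_⟩
  · have h4 : e b = 0 := (Finset.sum_eq_zero_iff.mp h2) b (mem_range.mpr hb)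
    rw [← inter_blk, he b hb, h4, mul_zero, zero_add]
  · by_contra hcon
    have h4 : β i ∈ high k β :=
      mem_filter.mpr ⟨mem_image.mpr ⟨i, mem_univ _, rfl⟩, not_lt.mp hcon⟩
    have h5 : i ∈ S ∩ blk β (β i) := by
      simp only [blk, mem_inter, mem_filter, mem_univ, true_and, and_true]
      exact hi
    have h6 : ∑ b ∈ high k β, (S ∩ blk β b).card = 0 := by omega
    have h7 := (Finset.sum_eq_zero_iff.mp h6) (β i) h4
    rw [Finset.card_eq_zero] at h7
    rw [h7] at h5
    simp at h5

open Classical in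
theorem rainbow_bound (k r : ℕ) (hk : 1 ≤ k) (β : Fin n → ℕ) (f : Cube n → ℝ)
    (hd : ∀ S, coef f S ≠ 0 → Par k β S → S.card ≤ k + 2 * r) (B : ℝ) (hB : ∀ x, |f x| ≤ B) (x : Cube n) :
    |∑ S : Finset (Fin n), (if Rb k β S then (1 : ℝ) else 0) * coef f S * chi S x| ≤
      (12 * ((k : ℝ) + r)) ^ r * B := by
  obtain ⟨a, t, ht, hw, hs⟩ := weights k r hk
  have hB0 : 0 ≤ B := (abs_nonneg _).trans (hB x)
  have hi : ∀ i ∈ range (r + 1),
      |∑ S : Finset (Fin n), ((if Par k β S then (1 : ℝ) else 0) * t i ^ S.card) *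
        coef f S * chi S x| ≤ B := by
    intro i hi
    exact ((con_par k β).mul (con_noise (ht i hi).1 (ht i hi).2)) f B hB x
  have hsum : ∑ S : Finset (Fin n), (if Rb k β S then (1 : ℝ) else 0) * coef f S * chi S x =
      ∑ i ∈ range (r + 1), a i * ∑ S : Finset (Fin n),
        ((if Par k β S then (1 : ℝ) else 0) * t i ^ S.card) * coef f S * chi S x := by
    simp_rw [Finset.mul_sum]
    rw [Finset.sum_comm]
    refine Finset.sum_congr rfl fun S _ => ?_
    have e1 : ∑ i ∈ range (r + 1), a i * ((if Par k β S then (1 : ℝ) else 0) * t i ^ S.card *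
        coef f S * chi S x) = (if Par k β S then (1 : ℝ) else 0) *
          (∑ i ∈ range (r + 1), a i * t i ^ S.card) * coef f S * chi S x := by
      rw [Finset.mul_sum, Finset.sum_mul, Finset.sum_mul]
      refine Finset.sum_congr rfl fun i _ => ?_
      ring
    rw [e1]
    by_cases hp : Par k β S
    · obtain ⟨j, hj, hj0⟩ := par_card hp
      by_cases hcoef : coef f S = 0
      · rw [hcoef]
        simp
      · have hcard := hd S hcoef hp
        have hjr : j ≤ r := by omega
        rw [if_pos hp, hj, hw j hjr]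
        by_cases h0 : j = 0
        · rw [if_pos h0, if_pos (hj0 h0), mul_one]
        · rw [if_neg h0, if_neg, mul_zero]
          intro hR
          have := (rb_par hR).2
          omega
    · rw [if_neg hp, if_neg fun hR => hp (rb_par hR).1]
      simp
  rw [hsum]
  calc |∑ i ∈ range (r + 1), a i * ∑ S : Finset (Fin n),
        ((if Par k β S then (1 : ℝ) else 0) * t i ^ S.card) * coef f S * chi S x|
      ≤ ∑ i ∈ range (r + 1), |a i * ∑ S : Finset (Fin n),
        ((if Par k β S then (1 : ℝ) else 0) * t i ^ S.card) * coef f S * chi S x| :=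
        Finset.abs_sum_le_sum_abs _ _
    _ ≤ ∑ i ∈ range (r + 1), |a i| * B := by
        refine Finset.sum_le_sum fun i h => ?_
        rw [abs_mul]
        exact mul_le_mul_of_nonneg_left (hi i h) (abs_nonneg _)
    _ = (∑ i ∈ range (r + 1), |a i|) * B := by rw [Finset.sum_mul]
    _ ≤ _ := mul_le_mul_of_nonneg_right hs hB0

end Pool.Agent.RBW
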