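import Pool.Agent.RBW.EpsT
import Pool.Agent.BMP.ToCube
import Pool.Agent.Helper11.AADefs

/-!
# RBW/EpsC: the theorem for block-multilinear functions with bounded derivatives, on the cube
-/

namespace Pool.Agent.RBW

open Finset BMP BMV Pool.Agent.Helper11.AA Pool.Agent.Helper11.Cube

/-- `∑_{S ∋ j} f^(S) x^S = x_j D_j f(x)`. -/
lemma sum_deriv {n : ℕ} (f : Cube n → ℝ) (j : Fin n) (x : Cube n) :
    ∑ S : Finset (Fin n), (if j ∈ S then coef f S else 0) * chi S x =
      ((x j : ℤ) : ℝ) * discreteDeriv j f x := by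
  have h3 := sub_flip f j x
  conv_lhs at h3 => rw [inversion f x, inversion f (flipOn {j} x)]
  rw [← Finset.sum_sub_distrib] at h3
  have h4 : ∀ S ∈ (univ : Finset (Finset (Fin n))),
      coef f S * chi S x - coef f S * chi S (flipOn {j} x)
      = 2 * ((if j ∈ S then coef f S else 0) * chi S x) := by
    intro S _
    rw [chi_flip]
    split_ifs with hj
    · rw [Finset.inter_singleton_of_mem hj]; simp; ring
    · rw [Finset.inter_singleton_of_notMem hj]; simp
  rw [Finset.sum_congr rfl h4, ← Finset.mul_sum] at h3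
  linarith

lemma abs_sum_deriv {n : ℕ} (f : Cube n → ℝ) (j : Fin n) (x : Cube n) :
    |∑ S : Finset (Fin n), (if j ∈ S then coef f S else 0) * chi S x| = |discreteDeriv j f x| := by
  rw [sum_deriv, abs_mul, abs_unit, one_mul]

variable {n k : ℕ} {f : Cube n → ℝ} {β : Fin n → Fin k}

lemma tensor_Dbd (hf : ∀ S, coef f S ≠ 0 → ∀ b, (S.filter (fun i => β i = b)).card = 1)
    {ε : ℝ} (hε : 0 < ε) (h1 : ∀ j x, |discreteDeriv j f x| ≤ ε) : Dbd ε (tensor f β) := by
  intro b i s
  by_cases hb : β i = b
  · set g : Cube n → ℝ := fun x => ∑ S : Finset (Fin n),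
      ((if i ∈ S then coef f S else 0) / ε) * chi S x with hg
    have hcg : ∀ S, coef g S = (if i ∈ S then coef f S else 0) / ε := fun S => coef_poly _ S
    have hg1 : ∀ x, |g x| ≤ 1 := by
      intro x
      have e : g x = (∑ S : Finset (Fin n), (if i ∈ S then coef f S else 0) * chi S x) / ε := by
        rw [hg, Finset.sum_div]
        refine Finset.sum_congr rfl fun S _ => ?_
        ring
      rw [e, abs_div, abs_of_pos hε, div_le_one hε, abs_sum_deriv]
      exact h1 i x
    have hgf : ∀ S, coef g S ≠ 0 → ∀ b, (S.filter (fun i => β i = b)).card = 1 := by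
      intro S hS
      apply hf S
      intro h0
      apply hS
      rw [hcg, h0]
      simp
    have hB := tensor_Bdd hgf hg1 s
    have hsl : ∀ B : Fin k → Fin n, sl (tensor f β) b i B = ε * tensor g β B := by
      intro B
      unfold sl tensor
      by_cases hc : ∀ b, β (B b) = b
      · rw [if_pos hc, if_pos hc, hcg]
        by_cases hi : B b = i
        · rw [if_pos hi, if_pos (by rw [← hi]; exact mem_image_of_mem _ (mem_univ _))]
          field_simp
        · rw [if_neg hi, if_neg, zero_div, mul_zero]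
          intro hm
          rw [mem_image] at hm
          obtain ⟨b', _, hb'⟩ := hm
          apply hi
          have : b' = b := by rw [← hc b', hb', hb]
          rw [← this, hb']
      · rw [if_neg hc, if_neg hc, ite_self, mul_zero]
    have hev : ev (sl (tensor f β) b i) s = ε * ev (tensor g β) s := by
      unfold ev
      rw [Finset.mul_sum]
      refine Finset.sum_congr rfl fun B _ => ?_
      rw [hsl B]
      ring
    rw [hev, abs_mul, abs_of_pos hε]
    calc ε * |ev (tensor g β) s| ≤ ε * 1 := mul_le_mul_of_nonneg_left hB hε.le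
      _ = ε := mul_one ε
  · have hz : ev (sl (tensor f β) b i) s = 0 := by
      unfold ev
      refine Finset.sum_eq_zero fun B _ => ?_
      unfold sl tensor
      by_cases hi : B b = i
      · rw [if_pos hi, if_neg, zero_mul]
        intro hc
        apply hb
        rw [← hi]
        exact hc b
      · rw [if_neg hi, zero_mul]
    rw [hz, abs_zero]
    exact hε.le

theorem finCE : ∃ C : ℕ, 0 < C ∧ ∀ (n k : ℕ) (f : Cube n → ℝ) (β : Fin n → Fin k), 1 ≤ k →
    (∀ S, coef f S ≠ 0 → ∀ b, (S.filter (fun i => β i = b)).card = 1) → (∀ x, |f x| ≤ 1) →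
    ∀ ε : ℝ, 0 < ε → (∀ j x, |discreteDeriv j f x| ≤ ε) → 0 < variance f →
    variance f ≤ ε ∧ ∃ j : Fin n,
      (variance f / (2 * (k : ℝ) * ε)) ^ C ≤ ex (fun x => discreteDeriv j f x ^ 2) / ε ^ 2 := by
  obtain ⟨C, hC, h⟩ := finE
  refine ⟨C, hC, fun n k f β hk hf h1 ε hε hd hV => ?_⟩
  have hkpos : 0 < Fintype.card (Fin k) := by rw [Fintype.card_fin]; exact hk
  have hB := tensor_Bdd hf h1
  have hD := tensor_Dbd hf hε hd
  refine ⟨?_, ?_⟩
  · rw [← tensor_VV hk hf]
    exact VV_le_eps hε.le (Fintype.card (Fin k) - 1) (Fin n) (Fin k) (by omega) _ hB hD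
  · have hn : (univ : Finset (Fin n)).Nonempty := by
      by_contra h0
      rw [not_nonempty_iff_eq_empty] at h0
      have h3 := poincare f
      rw [h0, sum_empty] at h3
      linarith
    obtain ⟨j, _, hj⟩ := exists_max_image univ (fun j => ex (fun x => discreteDeriv j f x ^ 2)) hn
    refine ⟨j, ?_⟩
    have hM0 : 0 ≤ ex (fun x => discreteDeriv j f x ^ 2) := ex_nonneg fun x => sq_nonneg _
    have hmain := h (Fin k) (Fin n) hkpos (tensor f β) hB ε hε hD _ hM0
      (fun b i => le_trans (tensor_infl b i) (hj i (mem_univ _)))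
    rwa [tensor_VV hk hf, Fintype.card_fin] at hmain

end Pool.Agent.RBW
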