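import Pool.Agent.BMV.Iter
import Pool.Agent.BMV.StartT
import Pool.Agent.BMP.Ins
import Pool.Agent.BMP.QQ

/-!
# RBW/EpsT: the theorem for block-multilinear forms with bounded derivatives, tensor version

As `BMV.finT` (free energy argument), with the additional information that the derivatives are bounded by `ε`: it is
kept by revealing a block, and for one block the free energy is at most `2 θ^α ε^(1-2α)`.
-/

namespace Pool.Agent.RBW

open Finset BMP BMV

variable {ι X : Type} [Fintype ι] [DecidableEq ι] [Fintype X] [DecidableEq X]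

/-- The part of the form which contains the variable `i` of the block `b`. -/
def sl (c : (ι → X) → ℝ) (b : ι) (i : X) : (ι → X) → ℝ := fun B => if B b = i then c B else 0

/-- The derivatives are bounded by `ε`. -/
def Dbd (ε : ℝ) (c : (ι → X) → ℝ) : Prop := ∀ b i s, |ev (sl c b i) s| ≤ ε

lemma ev_rev (c : (ι → X) → ℝ) (b : ι) (s : X → Bool) (s' : {j // j ≠ b} → X → Bool) :
    ev (rev c b s) s' = ev c (fun j => if h : j = b then s else s' ⟨j, h⟩) := by
  unfold ev
  rw [sum_ins b]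
  refine Finset.sum_congr rfl fun A _ => ?_
  show dt (vA c b A) s * _ = _
  unfold dt vA
  rw [Finset.sum_mul]
  refine Finset.sum_congr rfl fun i _ => ?_
  rw [Fintype.prod_eq_mul_prod_subtype_ne _ b]
  beta_reduce
  rw [dif_pos rfl, ins_same, mul_assoc]
  congr 2
  refine Finset.prod_congr rfl fun j _ => ?_
  rw [dif_neg j.2, ins_ne]

lemma sl_rev (c : (ι → X) → ℝ) (b : ι) (s : X → Bool) (b' : {j // j ≠ b}) (i : X) :
    sl (rev c b s) b' i = rev (sl c b'.1 i) b s := by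
  funext A
  unfold sl rev vA dt
  simp only [ins_ne]
  split_ifs with h
  · rfl
  · simp

lemma Dbd_rev {ε : ℝ} {c : (ι → X) → ℝ} (h : Dbd ε c) (b : ι) (s : X → Bool) :
    Dbd ε (rev c b s) := by
  intro b' i s'
  rw [sl_rev, ev_rev]
  exact h _ _ _

omit [DecidableEq X] in
private lemma sum_abs_le' (h1 : Fintype.card ι = 1) (c : (ι → X) → ℝ) (hc : Bdd c) :
    ∑ B : ι → X, |c B| ≤ 1 := by
  classical
  obtain ⟨b₀, hb₀⟩ := Fintype.card_eq_one_iff.1 h1
  let s : ι → X → Bool := fun _ x => decide (0 ≤ c (fun _ => x))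
  have h2 : ev c s = ∑ B : ι → X, |c B| := by
    unfold ev
    refine Finset.sum_congr rfl fun B _ => ?_
    have h3 : ∏ b, sg (s b (B b)) = sg (s b₀ (B b₀)) := by
      have h4 : (Finset.univ : Finset ι) = {b₀} := by
        ext b
        simp [hb₀ b]
      rw [h4, Finset.prod_singleton]
    have h5 : (fun _ => B b₀) = B := by
      funext b
      rw [hb₀ b]
    rw [h3]
    change c B * sg (decide (0 ≤ c (fun _ => B b₀))) = |c B|
    rw [h5]
    unfold sg
    by_cases h6 : 0 ≤ c B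
    · simp [h6, abs_of_nonneg h6]
    · rw [abs_of_neg (not_le.1 h6)]
      simp [h6]
  rw [← h2]
  exact (le_abs_self _).trans (hc s)

lemma abs_le_eps (h1 : Fintype.card ι = 1) (c : (ι → X) → ℝ) {ε : ℝ} (hc : Dbd ε c) (B : ι → X) :
    |c B| ≤ ε := by
  obtain ⟨b₀, hb₀⟩ := Fintype.card_eq_one_iff.1 h1
  have h2 := hc b₀ (B b₀) (fun _ _ => true)
  have h3 : ev (sl c b₀ (B b₀)) (fun _ _ => true) = c B := by
    unfold ev sl
    rw [Finset.sum_eq_single B]
    · simp [sg]
    · intro B' _ hB'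
      rw [if_neg, zero_mul]
      intro h
      apply hB'
      funext b
      rw [hb₀ b, h]
    · intro h
      exact absurd (Finset.mem_univ B) h
  rwa [h3] at h2

private lemma K0_ge' : (320 : ℝ) ≤ K0 := by
  have h : (1 : ℝ) ≤ Real.exp 200 := Real.one_le_exp (by norm_num)
  unfold K0 L0
  linarith

private lemma h0_pos' : 0 < h0 := by
  have h := K0_ge'
  unfold h0
  positivity

private lemma h0_le' : h0 ≤ 1 / 2 := by
  have h := K0_ge'
  unfold h0
  rw [div_le_div_iff₀ (by positivity) (by norm_num)]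
  linarith

private lemma d0_pos' : 0 < d0 := by
  have h := K0_ge'
  unfold d0
  positivity

private lemma bracket (θ δ h a ε W m k j : ℝ) (hθ : 0 < θ) (hδ : 0 < δ) (hδ1 : δ ≤ 1) (hh : 0 < h)
    (hh1 : h ≤ 1 / 2) (hε : 0 < ε)
    (ha0 : 0 ≤ a) (ha1 : a ≤ ε) (hW : W = a ^ 2) (hm : 0 ≤ m) (hk : 0 ≤ k) (hj : 0 ≤ j) (hjm : j ≤ 2 * m)
    (hWp : 0 < m → 0 < W) (hkp : 0 < m → 0 < k) :
    lc θ δ h W m k j - 2 * δ * (k * m) + h * δ * (j * k) ≤
      (1 + δ) * (θ ^ (δ / (1 + δ)) * ε ^ (1 - 2 * (δ / (1 + δ)))) * a := by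
  have hR : 0 ≤ (1 + δ) * (θ ^ (δ / (1 + δ)) * ε ^ (1 - 2 * (δ / (1 + δ)))) * a := by positivity
  rcases hm.eq_or_lt with h0 | hmp
  · have hj0 : j = 0 := by linarith
    subst h0
    subst hj0
    have : lc θ δ h W 0 k 0 = - (δ * (θ * k)) := by
      unfold lc
      simp
    rw [this]
    have h2 : 0 ≤ δ * (θ * k) := by positivity
    linarith
  · have hWp' := hWp hmp
    have hkp' := hkp hmp
    have hap : 0 < a := by
      rcases ha0.eq_or_lt with h1 | h1
      · rw [← h1] at hW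
        rw [hW] at hWp'
        norm_num at hWp'
      · exact h1
    have hla : Real.log a ≤ Real.log ε := Real.log_le_log hap ha1
    have hlW : Real.log (W / m) = 2 * Real.log a - Real.log m := by
      rw [Real.log_div hWp'.ne' hmp.ne', hW, Real.log_pow]
      norm_num
    have hlk : Real.log (θ * k / m) = Real.log θ + Real.log k - Real.log m := by
      rw [Real.log_div (by positivity) hmp.ne', Real.log_mul hθ.ne' hkp'.ne']
    have hy : Real.log (θ + m) + Real.log k - Real.log m ≤ (θ + m) * k / m - 1 := by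
      have h1 := Real.log_le_sub_one_of_pos (x := (θ + m) * k / m) (by positivity)
      rwa [Real.log_div (by positivity) hmp.ne', Real.log_mul (by positivity) hkp'.ne'] at h1
    have hlm : Real.log m ≤ Real.log (θ + m) := Real.log_le_log hmp (by linarith)
    have hq : m * Real.log (θ * k / m) + m - θ * k - m * k ≤ m * (Real.log θ - Real.log m) := by
      have h1 : m * ((θ + m) * k / m) = (θ + m) * k := by field_simp
      have h2 := mul_le_mul_of_nonneg_left hy hm
      have h3 := mul_le_mul_of_nonneg_left hlm hm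
      rw [mul_sub m ((θ + m) * k / m) 1, h1] at h2
      rw [hlk]
      nlinarith
    have hsq : 0 ≤ 8 * h * ((j - m) ^ 2 / m) := by positivity
    have hjk : h * δ * (j * k) ≤ δ * (m * k) := by
      have h1 : j * k ≤ 2 * m * k := mul_le_mul_of_nonneg_right hjm hk
      have h2 : h * δ * (j * k) ≤ h * δ * (2 * m * k) := mul_le_mul_of_nonneg_left h1 (by positivity)
      have h3 : h * (2 * δ * (m * k)) ≤ 1 / 2 * (2 * δ * (m * k)) :=
        mul_le_mul_of_nonneg_right hh1 (by positivity)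
      nlinarith
    have h1 : lc θ δ h W m k j - 2 * δ * (k * m) + h * δ * (j * k)
        ≤ m * (2 * Real.log a - Real.log m + 1) + δ * (m * (Real.log θ - Real.log m)) := by
      unfold lc
      rw [hlW]
      have h2 := mul_le_mul_of_nonneg_left hq hδ.le
      have h3 : 0 ≤ δ * (8 * h * ((j - m) ^ 2 / m)) := by positivity
      nlinarith
    refine h1.trans ?_
    set ms : ℝ := Real.exp ((2 * Real.log a + δ * Real.log θ - δ) / (1 + δ)) with hms
    have hmsp : 0 < ms := Real.exp_pos _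
    have hlms : (1 + δ) * Real.log ms = 2 * Real.log a + δ * Real.log θ - δ := by
      rw [hms, Real.log_exp]
      field_simp
    have h2 : m * (Real.log ms - Real.log m + 1) ≤ ms := by
      have h3 := Real.log_le_sub_one_of_pos (x := ms / m) (by positivity)
      rw [Real.log_div hmsp.ne' hmp.ne'] at h3
      have h4 := mul_le_mul_of_nonneg_left h3 hm
      have h5 : m * (ms / m) = ms := by field_simp
      rw [mul_sub m (ms / m) 1, h5] at h4
      linarith
    have h3 : m * (2 * Real.log a - Real.log m + 1) + δ * (m * (Real.log θ - Real.log m))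
        = (1 + δ) * (m * (Real.log ms - Real.log m + 1)) := by
      have h4 : (1 + δ) * (m * (Real.log ms - Real.log m + 1))
          = m * ((1 + δ) * Real.log ms) - (1 + δ) * (m * Real.log m) + (1 + δ) * m := by ring
      rw [h4, hlms]
      ring
    rw [h3]
    have h5 : ms ≤ θ ^ (δ / (1 + δ)) * ε ^ (1 - 2 * (δ / (1 + δ))) * a := by
      have h6 : θ ^ (δ / (1 + δ)) * ε ^ (1 - 2 * (δ / (1 + δ))) * a =
          Real.exp (Real.log θ * (δ / (1 + δ)) + Real.log ε * (1 - 2 * (δ / (1 + δ))) + Real.log a) := by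
        rw [Real.exp_add, Real.exp_add, Real.exp_log hap, Real.rpow_def_of_pos hθ,
          Real.rpow_def_of_pos hε]
      rw [h6, hms]
      apply Real.exp_le_exp.2
      have h7 : (1 + δ) * ((2 * Real.log a + δ * Real.log θ - δ) / (1 + δ))
          = 2 * Real.log a + δ * Real.log θ - δ := by field_simp
      have h8 : (1 + δ) * (Real.log θ * (δ / (1 + δ)) + Real.log ε * (1 - 2 * (δ / (1 + δ))) +
          Real.log a) = δ * Real.log θ + (1 - δ) * Real.log ε + (1 + δ) * Real.log a := by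
        field_simp
        ring
      have h9 : (1 + δ) * ((2 * Real.log a + δ * Real.log θ - δ) / (1 + δ))
          ≤ (1 + δ) * (Real.log θ * (δ / (1 + δ)) + Real.log ε * (1 - 2 * (δ / (1 + δ))) +
            Real.log a) := by
        rw [h7, h8]
        have h10 : (1 - δ) * Real.log a ≤ (1 - δ) * Real.log ε :=
          mul_le_mul_of_nonneg_left hla (by linarith)
        nlinarith
      exact le_of_mul_le_mul_left h9 (by positivity)
    calc (1 + δ) * (m * (Real.log ms - Real.log m + 1)) ≤ (1 + δ) * ms :=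
          mul_le_mul_of_nonneg_left h2 (by positivity)
      _ ≤ (1 + δ) * (θ ^ (δ / (1 + δ)) * ε ^ (1 - 2 * (δ / (1 + δ))) * a) :=
          mul_le_mul_of_nonneg_left h5 (by positivity)
      _ = (1 + δ) * (θ ^ (δ / (1 + δ)) * ε ^ (1 - 2 * (δ / (1 + δ)))) * a := by ring

private lemma hs_one (hι : Fintype.card ι = 1) (f : (ι → X) → (ι → X) → ℝ) :
    hs rM f = ∑ B, f B B := by
  obtain ⟨b₀, hb₀⟩ := Fintype.card_eq_one_iff.1 hι
  unfold hs
  refine Finset.sum_congr rfl fun B _ => ?_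
  rw [Finset.sum_eq_single B]
  · rw [if_pos]
    exact ⟨b₀, rfl⟩
  · intro C _ hC
    rw [if_neg]
    rintro ⟨b, hb⟩
    apply hC
    funext b'
    rw [hb₀ b', ← hb₀ b]
    exact hb.symm
  · intro h
    exact absurd (Finset.mem_univ B) h

theorem endE (hι : Fintype.card ι = 1) (c : (ι → X) → ℝ) (hc : Bdd c) {ε : ℝ} (hε : 0 < ε)
    (hd : Dbd ε c) (θ : ℝ) (hθ : 0 < θ) :
    GB θ c ≤ 2 * (θ ^ (d0 / (1 + d0)) * ε ^ (1 - 2 * (d0 / (1 + d0)))) := by
  have hs1 := sum_abs_le' hι c hc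
  have hd1 : d0 ≤ 1 := d0_small.trans (by norm_num)
  have hdp := d0_pos'
  have hc1 : ∀ B, |c B| ≤ ε := abs_le_eps hι c hd
  unfold GB GG
  apply csSup_le
  · refine ⟨_, fun _ => 0, fun _ => 0, fun _ => 0, ⟨?_, ?_, ?_, ?_, ?_, ?_⟩, rfl⟩
    · intro B; exact le_refl _
    · intro B; exact le_refl _
    · intro B; exact le_refl _
    · intro B; simp
    · intro B hB; exact absurd hB (lt_irrefl _)
    · intro B hB; exact absurd hB (lt_irrefl _)
  · rintro x ⟨m, k, j, hD, rfl⟩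
    unfold Psi
    rw [hs_one hι, hs_one hι]
    have h1 : ∑ B, lc θ d0 h0 (c B ^ 2) (m B) (k B) (j B) - 2 * d0 * ∑ B, k B * m B + h0 * d0 * ∑ B, mu k j B B
        = ∑ B, (lc θ d0 h0 (c B ^ 2) (m B) (k B) (j B) - 2 * d0 * (k B * m B) + h0 * d0 * (j B * k B)) := by
      rw [Finset.sum_add_distrib, Finset.sum_sub_distrib, Finset.mul_sum, Finset.mul_sum]
      congr 1
      refine Finset.sum_congr rfl fun B _ => ?_
      unfold mu
      rw [min_self]
    rw [h1]
    obtain ⟨τ, hτ⟩ : ∃ τ : ℝ, τ = θ ^ (d0 / (1 + d0)) * ε ^ (1 - 2 * (d0 / (1 + d0))) := ⟨_, rfl⟩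
    have hτ0 : 0 ≤ τ := by rw [hτ]; positivity
    rw [← hτ]
    calc ∑ B, (lc θ d0 h0 (c B ^ 2) (m B) (k B) (j B) - 2 * d0 * (k B * m B) + h0 * d0 * (j B * k B))
        ≤ ∑ B, (1 + d0) * τ * |c B| := by
          refine Finset.sum_le_sum fun B _ => ?_
          rw [hτ]
          exact bracket θ d0 h0 |c B| ε (c B ^ 2) (m B) (k B) (j B) hθ hdp hd1 h0_pos' h0_le' hε
            (abs_nonneg _) (hc1 B) (sq_abs _).symm (hD.m0 B) (hD.k0 B) (hD.j0 B) (hD.jm B) (hD.Wp B)
            (hD.kp B)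
      _ = (1 + d0) * τ * ∑ B, |c B| := by rw [Finset.mul_sum]
      _ ≤ (1 + d0) * τ * 1 := mul_le_mul_of_nonneg_left hs1 (by positivity)
      _ ≤ 2 * τ := by
          rw [mul_one]
          exact mul_le_mul_of_nonneg_right (by linarith) hτ0

/-- The variance is at most `ε`. -/
theorem VV_le_eps {ε : ℝ} (hε : 0 ≤ ε) : ∀ (n : ℕ) (X : Type) [Fintype X] [DecidableEq X] (ι : Type) [Fintype ι]
    [DecidableEq ι], Fintype.card ι = n + 1 → ∀ (c : (ι → X) → ℝ), Bdd c → Dbd ε c → VV c ≤ ε := by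
  intro n
  induction n with
  | zero =>
    intro X _ _ ι _ _ hι c hc hd
    have h1 := sum_abs_le' (by rw [hι]) c hc
    have h2 : ∀ B, |c B| ≤ ε := abs_le_eps (by rw [hι]) c hd
    unfold VV
    calc ∑ B, c B ^ 2 ≤ ∑ B, ε * |c B| := by
          refine Finset.sum_le_sum fun B _ => ?_
          rw [← sq_abs, sq]
          exact mul_le_mul_of_nonneg_right (h2 B) (abs_nonneg _)
      _ = ε * ∑ B, |c B| := by rw [Finset.mul_sum]
      _ ≤ ε * 1 := mul_le_mul_of_nonneg_left h1 hε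
      _ = ε := mul_one ε
  | succ n ih =>
    intro X _ _ ι _ _ hι c hc hd
    obtain ⟨b⟩ : Nonempty ι := Fintype.card_pos_iff.1 (by omega)
    have hcard : Fintype.card {j // j ≠ b} = n + 1 := by
      rw [Fintype.card_subtype_compl, Fintype.card_subtype_eq, hι]
      omega
    have h1 : ∀ s, VV (rev c b s) ≤ ε := fun s =>
      ih X {j // j ≠ b} hcard (rev c b s) (Bdd_rev c hc b s) (Dbd_rev hd b s)
    rw [← rev_avg c b]
    unfold Ex
    rw [div_le_iff₀ (by positivity)]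
    calc ∑ s : X → Bool, VV (rev c b s) ≤ ∑ _s : X → Bool, ε := Finset.sum_le_sum fun s _ => h1 s
      _ = ε * 2 ^ Fintype.card X := by
          rw [Finset.sum_const, Finset.card_univ, Fintype.card_fun, Fintype.card_bool, nsmul_eq_mul]
          push_cast
          ring

private theorem pow_claim {C1 : ℝ} (hC1 : 0 < C1) {p : ℕ} (hp : 2 * C1 ≤ p) {x : ℝ}
    (hx : 1 ≤ x) :
    x ^ p ≤ max (1 / 2) (1 - C1 / (x + 1)) * (x + 1) ^ p := by
  have hx0 : 0 < x := by linarith
  have hp0 : (0 : ℝ) < p := by linarith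
  have h1 : 1 + (p : ℝ) * (1 / x) ≤ (1 + 1 / x) ^ p :=
    one_add_mul_le_pow (by have : 0 < 1 / x := by positivity
                           linarith) p
  have h2 : (x + 1) ^ p = x ^ p * (1 + 1 / x) ^ p := by
    rw [← mul_pow]
    congr 1
    field_simp
  have h3 : (p : ℝ) / (x + 1) ≤ (p : ℝ) * (1 / x) := by
    rw [mul_one_div]
    apply div_le_div_of_nonneg_left hp0.le hx0 (by linarith)
  have hxp : 0 < x ^ p := by positivity
  obtain ⟨y, hy⟩ : ∃ y : ℝ, y = (p : ℝ) / (x + 1) := ⟨_, rfl⟩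
  have hy0 : 0 ≤ y := by rw [hy]; positivity
  have h4 : x ^ p * (1 + y) ≤ (x + 1) ^ p := by
    rw [h2]
    refine mul_le_mul_of_nonneg_left ?_ hxp.le
    rw [hy]
    linarith
  have h5 : 0 < (x + 1) ^ p := by positivity
  rcases le_or_gt 1 y with h6 | h6
  · have h7 : 1 / 2 * (x + 1) ^ p ≤ max (1 / 2) (1 - C1 / (x + 1)) * (x + 1) ^ p :=
      mul_le_mul_of_nonneg_right (le_max_left _ _) h5.le
    nlinarith
  · have h7 : (1 - C1 / (x + 1)) * (x + 1) ^ p ≤ max (1 / 2) (1 - C1 / (x + 1)) * (x + 1) ^ p :=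
      mul_le_mul_of_nonneg_right (le_max_right _ _) h5.le
    have h8 : C1 / (x + 1) ≤ y / 2 := by
      rw [hy, div_div, div_le_div_iff₀ (by linarith) (by linarith)]
      nlinarith
    have h9 : (1 - y / 2) * (x + 1) ^ p ≤ (1 - C1 / (x + 1)) * (x + 1) ^ p :=
      mul_le_mul_of_nonneg_right (by linarith) h5.le
    have h10 : (1 - y / 2) * (x ^ p * (1 + y)) ≤ (1 - y / 2) * (x + 1) ^ p :=
      mul_le_mul_of_nonneg_left h4 (by linarith)
    have h11 : 1 ≤ (1 - y / 2) * (1 + y) := by nlinarith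
    have h12 : x ^ p * 1 ≤ x ^ p * ((1 - y / 2) * (1 + y)) :=
      mul_le_mul_of_nonneg_left h11 hxp.le
    have h13 : (1 - y / 2) * (x ^ p * (1 + y)) = x ^ p * ((1 - y / 2) * (1 + y)) := by ring
    linarith

theorem iterE : ∃ p : ℕ, ∀ (n : ℕ) (X : Type) [Fintype X] [DecidableEq X] (ι : Type) [Fintype ι]
    [DecidableEq ι], Fintype.card ι = n + 1 → ∀ (c : (ι → X) → ℝ), Bdd c → ∀ ε : ℝ, 0 < ε →
    Dbd ε c → ∀ θ : ℝ, 0 < θ →
    GB θ c ≤ ((n + 1 : ℕ) : ℝ) ^ p * (2 * (θ ^ (d0 / (1 + d0)) * ε ^ (1 - 2 * (d0 / (1 + d0))))) := by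
  obtain ⟨C1, hC1⟩ : ∃ C1 : ℝ, C1 = 36 * Mt * d0 := ⟨_, rfl⟩
  have hC1p : 0 < C1 := by
    have h1 := d0_pos'
    have h2 : 0 < Mt := by
      unfold Mt
      exact Real.exp_pos _
    rw [hC1]
    positivity
  obtain ⟨p, hp⟩ : ∃ p : ℕ, 2 * C1 ≤ (p : ℝ) := exists_nat_ge (2 * C1)
  refine ⟨p, fun n => ?_⟩
  induction n with
  | zero =>
    intro X _ _ ι _ _ hι c hc ε hε hd θ hθ
    have h1 := endE (by rw [hι]) c hc hε hd θ hθ
    simpa using h1
  | succ n ih =>
    intro X _ _ ι _ _ hι c hc ε hε hd θ hθ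
    obtain ⟨b, s, hs⟩ := stepF (ι := ι) (X := X) (by omega) θ hθ c
    have hcard : Fintype.card {j // j ≠ b} = n + 1 := by
      rw [Fintype.card_subtype_compl, Fintype.card_subtype_eq, hι]
      omega
    have h1 := ih X {j // j ≠ b} hcard (rev c b s) (Bdd_rev c hc b s) ε hε (Dbd_rev hd b s) θ hθ
    obtain ⟨x, hx⟩ : ∃ x : ℝ, x = ((n + 1 : ℕ) : ℝ) := ⟨_, rfl⟩
    have hx1 : 1 ≤ x := by
      rw [hx]
      push_cast
      have : (0 : ℝ) ≤ n := Nat.cast_nonneg n
      linarith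
    have hι' : (Fintype.card ι : ℝ) = x + 1 := by
      rw [hι, hx]
      push_cast
      ring
    have hn2 : ((n + 1 + 1 : ℕ) : ℝ) = x + 1 := by
      rw [hx]
      push_cast
      ring
    rw [hι', ← hC1] at hs
    rw [← hx] at h1
    rw [hn2]
    have h2 := pow_claim hC1p hp hx1
    obtain ⟨ρ, hρ⟩ : ∃ ρ : ℝ, ρ = max (1 / 2) (1 - C1 / (x + 1)) := ⟨_, rfl⟩
    rw [← hρ] at hs h2
    have hρ0 : 0 < ρ := by
      rw [hρ]
      exact lt_max_of_lt_left (by norm_num)
    obtain ⟨τ, hτ⟩ : ∃ τ : ℝ, τ = 2 * (θ ^ (d0 / (1 + d0)) * ε ^ (1 - 2 * (d0 / (1 + d0)))) :=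
      ⟨_, rfl⟩
    have hτ0 : 0 ≤ τ := by rw [hτ]; positivity
    rw [← hτ] at h1 ⊢
    have h3 : x ^ p * τ ≤ ρ * (x + 1) ^ p * τ := mul_le_mul_of_nonneg_right h2 hτ0
    have h4 : ρ * GB θ c ≤ ρ * ((x + 1) ^ p * τ) := by
      calc ρ * GB θ c ≤ GB θ (rev c b s) := hs
        _ ≤ x ^ p * τ := h1
        _ ≤ ρ * (x + 1) ^ p * τ := h3
        _ = ρ * ((x + 1) ^ p * τ) := by ring
    exact le_of_mul_le_mul_left h4 hρ0

private theorem sum_infl72 (c : (ι → X) → ℝ) (b : ι) : ∑ i, infl c b i = VV c := by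
  unfold infl VV
  rw [Finset.sum_comm]
  refine Finset.sum_congr rfl fun B _ => ?_
  rw [Finset.sum_ite_eq]
  simp

private theorem arith72 {V t M α : ℝ} {p C : ℕ} (hV : 0 < V) (hV1 : V ≤ 1) (ht : 1 ≤ t)
    (hM : 0 < M) (hα : 0 < α) (hC : 1 + (p + 2) / α ≤ C)
    (h : V / 2 ≤ t ^ p * (2 * (t * M) ^ α)) : (V / (2 * t)) ^ C ≤ M := by
  have ht0 : 0 < t := by linarith
  have hx : 0 < V / (2 * t) := by positivity
  have hx1 : V / (2 * t) ≤ 1 := by
    rw [div_le_one (by positivity)]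
    linarith
  have htM : 0 < t * M := mul_pos ht0 hM
  have h1 : (V / (2 * t)) ^ (p + 2) ≤ (t * M) ^ α := by
    have h2 : (V / (2 * t)) ^ (p + 2) ≤ V / (4 * t ^ p) := by
      rw [div_pow]
      apply div_le_div₀ hV.le
      · calc V ^ (p + 2) ≤ V ^ 1 := pow_le_pow_of_le_one hV.le hV1 (by omega)
          _ = V := pow_one V
      · positivity
      · rw [mul_pow]
        have h3 : (4 : ℝ) ≤ 2 ^ (p + 2) := by
          calc (4 : ℝ) = 2 ^ 2 := by norm_num
            _ ≤ 2 ^ (p + 2) := pow_le_pow_right₀ (by norm_num) (by omega)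
        have h4 : t ^ p ≤ t ^ (p + 2) := pow_le_pow_right₀ ht (by omega)
        have h5 : 0 < t ^ p := by positivity
        exact mul_le_mul h3 h4 h5.le (by positivity)
    refine h2.trans ?_
    have h5 : 0 < t ^ p := by positivity
    rw [div_le_iff₀ (by positivity)]
    have h6 : V ≤ 2 * (t ^ p * (2 * (t * M) ^ α)) := by linarith
    calc V ≤ 2 * (t ^ p * (2 * (t * M) ^ α)) := h6
      _ = (t * M) ^ α * (4 * t ^ p) := by ring
  have h2 : (V / (2 * t)) ^ (((p : ℝ) + 2) / α) ≤ t * M := by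
    have h3 := Real.rpow_le_rpow (by positivity) h1 (by positivity : (0 : ℝ) ≤ 1 / α)
    rw [← Real.rpow_mul htM.le, mul_one_div_cancel hα.ne', Real.rpow_one, ← Real.rpow_natCast,
      ← Real.rpow_mul hx.le] at h3
    refine le_trans (le_of_eq ?_) h3
    congr 1
    push_cast
    ring
  have h3 : (V / (2 * t)) ^ (1 + ((p : ℝ) + 2) / α) ≤ M := by
    rw [Real.rpow_add hx, Real.rpow_one]
    have h4 : V / (2 * t) ≤ 1 / t := by
      rw [div_le_div_iff₀ (by positivity) ht0]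
      nlinarith
    calc V / (2 * t) * (V / (2 * t)) ^ (((p : ℝ) + 2) / α) ≤ 1 / t * (t * M) :=
          mul_le_mul h4 h2 (by positivity) (by positivity)
      _ = M := by field_simp
  refine le_trans ?_ h3
  rw [← Real.rpow_natCast]
  exact Real.rpow_le_rpow_of_exponent_ge hx hx1 hC

theorem finE : ∃ C : ℕ, 0 < C ∧ ∀ (ι X : Type) [Fintype ι] [DecidableEq ι] [Fintype X] [DecidableEq X],
    0 < Fintype.card ι → ∀ (c : (ι → X) → ℝ), Bdd c → ∀ ε : ℝ, 0 < ε → Dbd ε c →
    ∀ M : ℝ, 0 ≤ M → (∀ b i, infl c b i ≤ M) →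
    (VV c / (2 * (Fintype.card ι : ℝ) * ε)) ^ C ≤ M / ε ^ 2 := by
  have hd0 := d0_pos'
  have hd1 : d0 ≤ 1 / 4 := d0_small.trans (by norm_num)
  obtain ⟨p, hp⟩ := iterE
  have hα : 0 < d0 / (1 + d0) := by positivity
  refine ⟨⌈1 + ((p : ℝ) + 2) / (d0 / (1 + d0))⌉₊, Nat.ceil_pos.2 (by positivity), ?_⟩
  intro ι X _ _ _ _ hι c hc ε hε hd M hM0 hM
  have hCpos : ⌈1 + ((p : ℝ) + 2) / (d0 / (1 + d0))⌉₊ ≠ 0 := (Nat.ceil_pos.2 (by positivity)).ne'
  have hV1 : VV c ≤ ε := VV_le_eps hε.le (Fintype.card ι - 1) X ι (by omega) c hc hd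
  have hV0 := VV_nonneg c
  rcases hV0.eq_or_lt with hV | hV
  · rw [← hV, zero_div, zero_pow hCpos]
    positivity
  · have hMpos : 0 < M := by
      rcases hM0.eq_or_lt with h | h
      · exfalso
        obtain ⟨b⟩ : Nonempty ι := Fintype.card_pos_iff.1 hι
        rw [← sum_infl72 c b] at hV
        have h2 : ∑ i, infl c b i ≤ 0 := Finset.sum_nonpos fun i _ => by
          rw [h]
          exact hM b i
        linarith
      · exact h
    have ht : (1 : ℝ) ≤ (Fintype.card ι : ℝ) := by exact_mod_cast hι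
    have e0 : VV c / (2 * (Fintype.card ι : ℝ) * ε) = VV c / ε / (2 * (Fintype.card ι : ℝ)) := by
      rw [div_div]
      congr 1
      ring
    rw [e0]
    refine arith72 (p := p) (div_pos hV hε) ((div_le_one hε).2 hV1) ht (by positivity) hα
      (Nat.le_ceil _) ?_
    have h1 := startT hι c M hMpos hM
    have h2 := hp (Fintype.card ι - 1) X ι (by omega) c hc ε hε hd ((Fintype.card ι : ℝ) * M)
      (by positivity)
    have e : Fintype.card ι - 1 + 1 = Fintype.card ι := by omega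
    rw [e] at h2
    obtain ⟨α, hαd⟩ : ∃ α : ℝ, α = d0 / (1 + d0) := ⟨_, rfl⟩
    obtain ⟨t, htd⟩ : ∃ t : ℝ, t = (Fintype.card ι : ℝ) := ⟨_, rfl⟩
    rw [← hαd] at h2 ⊢
    rw [← htd] at h2 h1 ht ⊢
    have ht0 : 0 < t := by linarith
    have h3 : (t * (M / ε ^ 2)) ^ α = (t * M) ^ α * ε ^ (1 - 2 * α) / ε := by
      have e1 : t * (M / ε ^ 2) = (t * M) / ε ^ 2 := by ring
      rw [e1, Real.div_rpow (by positivity) (by positivity), ← Real.rpow_natCast ε 2,
        ← Real.rpow_mul hε.le, Real.rpow_sub hε, Real.rpow_one]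
      have h5 : (ε : ℝ) ^ (2 * α) ≠ 0 := (Real.rpow_pos_of_pos hε _).ne'
      push_cast
      field_simp
    rw [h3]
    have h4 : VV c / 2 ≤ t ^ p * (2 * ((t * M) ^ α * ε ^ (1 - 2 * α))) := by
      refine le_trans ?_ (h1.trans h2)
      nlinarith
    have h6 : t ^ p * (2 * ((t * M) ^ α * ε ^ (1 - 2 * α) / ε)) =
        t ^ p * (2 * ((t * M) ^ α * ε ^ (1 - 2 * α))) / ε := by ring
    rw [h6, div_div, mul_comm ε 2, ← div_div]
    exact div_le_div_of_nonneg_right h4 hε.le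

end Pool.Agent.RBW
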