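import Pool.Agent.Helper11.AADefs

/-!
# RBW/Flip: Fourier multipliers which do not increase the sup norm
-/

namespace Pool.Agent.RBW

open Finset Pool.Agent.Helper11.Cube Pool.Agent.Helper11.AA

variable {n : ℕ}

/-- The multiplier `φ` does not increase the sup norm. -/
def Con (φ : Finset (Fin n) → ℝ) : Prop :=
  ∀ (f : Cube n → ℝ) (B : ℝ), (∀ x, |f x| ≤ B) →
    ∀ x, |∑ S : Finset (Fin n), φ S * coef f S * chi S x| ≤ B

lemma con_one : Con (fun _ : Finset (Fin n) => (1 : ℝ)) := by
  intro f B h x
  have : ∑ S : Finset (Fin n), 1 * coef f S * chi S x = f x := by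
    rw [inversion f x]
    exact Finset.sum_congr rfl fun S _ => by ring
  rw [this]
  exact h x

lemma Con.mul {φ ψ : Finset (Fin n) → ℝ} (h1 : Con φ) (h2 : Con ψ) :
    Con (fun S => φ S * ψ S) := by
  intro f B h x
  have h3 := h2 f B h
  have h4 := h1 (fun x => ∑ S : Finset (Fin n), ψ S * coef f S * chi S x) B h3 x
  refine le_of_eq_of_le ?_ h4
  congr 1
  refine Finset.sum_congr rfl fun S _ => ?_
  rw [coef_poly (fun S => ψ S * coef f S) S]
  ring

lemma Con.prod {ι : Type*} [DecidableEq ι] (s : Finset ι) (φ : ι → Finset (Fin n) → ℝ)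
    (h : ∀ i ∈ s, Con (φ i)) : Con (fun S => ∏ i ∈ s, φ i S) := by
  induction s using Finset.induction_on with
  | empty => simpa using con_one
  | insert a s ha ih =>
    have h1 := (h a (mem_insert_self a s)).mul (ih fun i hi => h i (mem_insert_of_mem hi))
    refine (congrArg Con ?_).mp h1
    funext S
    rw [Finset.prod_insert ha]

/-- Convex combinations of the identity and a sign change on `A`. -/
lemma con_flip (A : Finset (Fin n)) (a b : ℝ) (hab : |a| + |b| ≤ 1) :
    Con (fun S => a + b * (-1 : ℝ) ^ (S ∩ A).card) := by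
  intro f B h x
  have hB : 0 ≤ B := (abs_nonneg _).trans (h x)
  have : ∑ S : Finset (Fin n), (a + b * (-1 : ℝ) ^ (S ∩ A).card) * coef f S * chi S x =
      a * f x + b * f (flipOn A x) := by
    rw [inversion f x, inversion f (flipOn A x), Finset.mul_sum, Finset.mul_sum,
      ← Finset.sum_add_distrib]
    refine Finset.sum_congr rfl fun S _ => ?_
    rw [chi_flip]
    ring
  rw [this]
  calc |a * f x + b * f (flipOn A x)| ≤ |a| * |f x| + |b| * |f (flipOn A x)| := by
        refine (abs_add_le _ _).trans ?_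
        rw [abs_mul, abs_mul]
    _ ≤ |a| * B + |b| * B := by
        have h1 := h x
        have h2 := h (flipOn A x)
        gcongr
    _ = (|a| + |b|) * B := by ring
    _ ≤ 1 * B := by gcongr
    _ = B := one_mul B

/-- Noise: the multiplier `t ^ |S|`. -/
lemma con_noise {t : ℝ} (h0 : 0 ≤ t) (h1 : t ≤ 1) :
    Con (fun S : Finset (Fin n) => t ^ S.card) := by
  have h := Con.prod (n := n) univ
    (fun i : Fin n => fun S => (1 + t) / 2 + (1 - t) / 2 * (-1 : ℝ) ^ (S ∩ {i}).card)
    (fun i _ => con_flip {i} _ _ (by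
      rw [abs_of_nonneg (by linarith), abs_of_nonneg (by linarith)]
      linarith))
  refine (congrArg Con ?_).mp h
  funext S
  have h2 : ∀ i : Fin n, (1 + t) / 2 + (1 - t) / 2 * (-1 : ℝ) ^ (S ∩ {i}).card =
      if i ∈ S then t else 1 := by
    intro i
    split_ifs with hi
    · rw [Finset.inter_singleton_of_mem hi]
      simp only [Finset.card_singleton, pow_one]
      ring
    · rw [Finset.inter_singleton_of_notMem hi]
      simp only [Finset.card_empty, pow_zero]
      ring
  simp_rw [h2]
  rw [Finset.prod_ite, Finset.prod_const_one, mul_one, Finset.prod_const]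
  congr 1
  congr 1
  ext i
  simp

/-- The variables of the block `b`. -/
def blk (β : Fin n → ℕ) (b : ℕ) : Finset (Fin n) := univ.filter fun i => β i = b

/-- Odd in every block `b < k`, even in all other blocks. -/
def Par (k : ℕ) (β : Fin n → ℕ) (S : Finset (Fin n)) : Prop :=
  (∀ b < k, Odd (S ∩ blk β b).card) ∧ ∀ b, k ≤ b → Even (S ∩ blk β b).card

/-- The numbers of the nonempty blocks `b ≥ k`. -/
def high (k : ℕ) (β : Fin n → ℕ) : Finset ℕ := (univ.image β).filter fun b => k ≤ b

lemma even_high {k : ℕ} {β : Fin n → ℕ} {S : Finset (Fin n)}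
    (h : ∀ b ∈ high k β, Even (S ∩ blk β b).card) (b : ℕ) (hb : k ≤ b) :
    Even (S ∩ blk β b).card := by
  by_cases hi : b ∈ univ.image β
  · exact h b (mem_filter.mpr ⟨hi, hb⟩)
  · have : S ∩ blk β b = ∅ := by
      ext i
      simp only [blk, mem_inter, mem_filter, mem_univ, true_and, notMem_empty, iff_false, not_and]
      intro _ hc
      exact hi (mem_image.mpr ⟨i, mem_univ _, hc⟩)
    rw [this]
    simp

open Classical in
lemma con_par (k : ℕ) (β : Fin n → ℕ) : Con (fun S => if Par k β S then (1 : ℝ) else 0) := by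
  have h1 := Con.prod (n := n) (range k)
    (fun b => fun S => 1 / 2 + (-(1 / 2)) * (-1 : ℝ) ^ (S ∩ blk β b).card)
    (fun b _ => con_flip (blk β b) _ _ (by
      rw [abs_neg, abs_of_nonneg (by norm_num)]
      norm_num))
  have h2 := Con.prod (n := n) (high k β)
    (fun b => fun S => 1 / 2 + (1 / 2) * (-1 : ℝ) ^ (S ∩ blk β b).card)
    (fun b _ => con_flip (blk β b) (1 / 2) (1 / 2) (by
      rw [abs_of_nonneg (by norm_num)]
      norm_num))
  have h3 := h1.mul h2
  refine (congrArg Con ?_).mp h3
  funext S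
  by_cases hp : Par k β S
  · rw [if_pos hp, Finset.prod_eq_one, Finset.prod_eq_one]
    · norm_num
    · intro b hb
      rw [(hp.2 b (mem_filter.mp hb).2).neg_one_pow]
      norm_num
    · intro b hb
      rw [(hp.1 b (mem_range.mp hb)).neg_one_pow]
      norm_num
  · rw [if_neg hp]
    unfold Par at hp
    by_cases he : ∀ b ∈ high k β, Even (S ∩ blk β b).card
    · have : ∃ b < k, ¬ Odd (S ∩ blk β b).card := by
        by_contra hcon
        push Not at hcon
        exact hp ⟨fun b hb => by simpa using hcon b hb, even_high he⟩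
      obtain ⟨b, hb, hbo⟩ := this
      rw [Finset.prod_eq_zero (mem_range.mpr hb), zero_mul]
      rw [Nat.not_odd_iff_even] at hbo
      rw [hbo.neg_one_pow]
      norm_num
    · push Not at he
      obtain ⟨b, hb, hbo⟩ := he
      rw [Finset.prod_eq_zero (s := high k β) hb, mul_zero]
      rw [Nat.not_even_iff_odd] at hbo
      rw [hbo.neg_one_pow]
      norm_num

end Pool.Agent.RBW
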